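import Pool.Agent.R904.EL.MV

/-!
# Complements of elementary hypersurfaces suffice
-/

set_option autoImplicit false

open CategoryTheory CategoryTheory.Limits AlgebraicGeometry MvPolynomial
open Pool.Agent.R904.CU

namespace Pool.Agent.R904.EL

/-- the principal open subset -/
noncomputable def dOpen {A : Type} [CommRing A] (a : A) : (Spec (.of A)).Opens :=
  PrimeSpectrum.basicOpen a

theorem mem_dOpen {A : Type} [CommRing A] (a : A) (x : Spec (.of A)) :
    x ∈ dOpen a ↔ a ∉ x.asIdeal := Iff.rfl

theorem dOpen_mul {A : Type} [CommRing A] (a b : A) : dOpen (a * b) = dOpen a ⊓ dOpen b :=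
  PrimeSpectrum.basicOpen_mul a b

theorem dOpen_inf {A : Type} [CommRing A] (a b h : A) :
    dOpen (a * h) ⊓ dOpen (b * h) = dOpen (a * (b * h)) := by
  rw [dOpen_mul, dOpen_mul, dOpen_mul, dOpen_mul, inf_inf_inf_comm, inf_idem, inf_assoc]

theorem openU_eq {A : Type} [CommRing A] {κ : Type} [Fintype κ] (g : κ → A) :
    openU g = Finset.univ.sup fun k => dOpen (g k * 1) := by
  apply le_antisymm
  · rintro x ⟨k, hk⟩
    have h1 : dOpen (g k * 1) ≤ Finset.univ.sup fun k => dOpen (g k * 1) :=
      Finset.le_sup (f := fun k => dOpen (g k * 1)) (Finset.mem_univ k)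
    refine h1 ?_
    rw [mul_one]
    exact hk
  · refine Finset.sup_le fun k _ => ?_
    intro x hx
    rw [mul_one] at hx
    exact ⟨k, hx⟩

/-- the complement of the hypersurface `a = 0` -/
noncomputable abbrev compl {R : Type} [CommRing R] {σ : Type} (a : MvPolynomial σ R) :
    Scheme.{0} := Spec (.of (Localization.Away a))

/-- its structure morphism -/
noncomputable abbrev complHom {R : Type} [CommRing R] {σ : Type} (a : MvPolynomial σ R) :
    compl a ⟶ Spec (.of R) :=
  Spec.map (CommRingCat.ofHom (algebraMap R (Localization.Away a)))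

/-- the finite products of polynomials of the form `xᵢ xⱼ - xₖ`, `xᵢ + xⱼ - xₖ`, `xᵢ - a`, `a ∈ K` -/
noncomputable def elemProds {R : Type} [CommRing R] (K : Set R) (σ : Type) : Submonoid (MvPolynomial σ R) :=
  Submonoid.closure {p | IsElem K p}

section

variable {R : Type} [CommRing R] [IsNoetherianRing R] {Cl P : SchProp R} (hCl : Cls Cl)
  (h : Glue Cl P)

include hCl h

theorem p_sup {A : Type} [CommRing A] (f : Spec (.of A) ⟶ Spec (.of R)) (hf : Cl _ f)
    (M : Submonoid A) (hM : ∀ a ∈ M, P (dOpen a) ((dOpen a).ι ≫ f)) {κ : Type} (g : κ → A)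
    (hg : ∀ k, g k ∈ M) (S : Finset κ) : ∀ b ∈ M, P ((S.sup fun k => dOpen (g k * b) :
      (Spec (.of A)).Opens) : Scheme.{0}) ((S.sup fun k => dOpen (g k * b)).ι ≫ f) := by
  classical
  induction S using Finset.induction_on with
  | empty =>
    intro b _
    refine h.empty _ _ ?_
    rw [Finset.sup_empty]
    exact ⟨fun x => x.2⟩
  | insert a S _ ih =>
    intro b hb
    rw [Finset.sup_insert, sup_comm]
    refine mv hCl h _ f hf _ _ (ih b hb) (hM _ (M.mul_mem (hg a) hb)) ?_
    rw [Finset.sup_inf_distrib_right]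
    have h1 : (fun k => dOpen (g k * b) ⊓ dOpen (g a * b)) = fun k => dOpen (g k * (g a * b)) := by
      funext k
      exact dOpen_inf _ _ _
    rw [h1]
    exact ih (g a * b) (M.mul_mem (hg a) hb)

theorem p_dOpen {σ : Type} (a : MvPolynomial σ R) (ha : P (compl a) (complHom a)) :
    P (dOpen a)
      ((dOpen a).ι ≫ Spec.map (CommRingCat.ofHom (algebraMap R (MvPolynomial σ R)))) := by
  let u0 : compl a ⟶ Spec (.of (MvPolynomial σ R)) :=
    Spec.map (CommRingCat.ofHom (algebraMap (MvPolynomial σ R) (Localization.Away a)))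
  have hop : IsOpenImmersion u0 := IsOpenImmersion.of_isLocalization a
  have hr : Set.range (dOpen a).ι = Set.range u0 := by
    rw [Scheme.Opens.range_ι]
    exact (PrimeSpectrum.localization_away_comap_range (Localization.Away a) a).symm
  let e := IsOpenImmersion.isoOfRangeEq (dOpen a).ι u0 hr
  refine h.iso _ (complHom a) e ?_ ha
  have h1 : e.hom ≫ u0 = (dOpen a).ι := IsOpenImmersion.isoOfRangeEq_hom_fac _ _ _
  rw [← h1, Category.assoc]
  congr 1
  rw [← Spec.map_comp, ← CommRingCat.ofHom_comp]

variable {K : Set R} (h1K : 1 ∈ K) (hK : Subring.closure K = ⊤)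
  (hS : ∀ (σ : Type) [Fintype σ], ∀ a ∈ elemProds K σ, P (compl a) (complHom a))

include h1K hK hS

theorem p_space {σ : Type} [Fintype σ] : P (Spec (.of (MvPolynomial σ R)))
    (Spec.map (CommRingCat.ofHom (algebraMap R (MvPolynomial σ R)))) := by
  have h1 := p_dOpen hCl h (1 : MvPolynomial σ R) (hS σ 1 (Submonoid.one_mem _))
  have htop : dOpen (1 : MvPolynomial σ R) = ⊤ := PrimeSpectrum.basicOpen_one
  have hiso : IsIso (dOpen (1 : MvPolynomial σ R)).ι := by
    rw [htop]
    exact inferInstanceAs (IsIso (Scheme.topIso (Spec (.of (MvPolynomial σ R)))).hom)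
  exact h.iso _ _ (asIso (dOpen (1 : MvPolynomial σ R)).ι).symm (by simp) h1

/-- affine schemes of finite type -/
theorem p_affine (B : Type) [CommRing B] [Algebra R B] (hB : Algebra.FiniteType R B) :
    P (Spec (.of B)) (Spec.map (CommRingCat.ofHom (algebraMap R B))) := by
  obtain ⟨σ, κ, _, _, g, hg, ⟨e⟩⟩ := exists_elementary R K h1K hK B
  have hA : Cl (Spec (.of (MvPolynomial σ R)))
    (Spec.map (CommRingCat.ofHom (algebraMap R (MvPolynomial σ R)))) := hCl.affine _ inferInstance
  have h1 := p_sup hCl h _ hA (elemProds K σ) (fun a ha => p_dOpen hCl h a (hS σ a ha)) g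
    (fun k => Submonoid.subset_closure (hg k)) Finset.univ 1 (Submonoid.one_mem _)
  rw [← openU_eq] at h1
  have h4 := h.sub _ _ _ _ (closedZ g) (openU g).ι hA inferInstance inferInstance
    (range_closedZ g) (p_space hCl h h1K hK hS) h1
  have h5 : closedZ g ≫ Spec.map (CommRingCat.ofHom (algebraMap R (MvPolynomial σ R))) =
      Spec.map (CommRingCat.ofHom (algebraMap R
        (MvPolynomial σ R ⧸ Ideal.span (Set.range g)))) := by
    unfold closedZ
    rw [← Spec.map_comp, ← CommRingCat.ofHom_comp]
  rw [h5] at h4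
  refine h.iso _ _ (Scheme.Spec.mapIso e.toRingEquiv.toCommRingCatIso.op) ?_ h4
  change Spec.map (CommRingCat.ofHom e.toRingEquiv.toRingHom) ≫ _ = _
  rw [← Spec.map_comp, ← CommRingCat.ofHom_comp]
  congr 2
  exact e.toAlgHom.comp_algebraMap

theorem p_affine' (X : Scheme.{0}) [IsAffine X] (f : X ⟶ Spec (.of R)) (hf : Cl X f) : P X f := by
  have hft := (hCl.ft X f hf).1
  obtain ⟨φ, hφ⟩ := Spec.map_surjective (X.isoSpec.inv ≫ f)
  have hft2 : LocallyOfFiniteType (Spec.map φ) := by
    rw [hφ]
    infer_instance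
  have hφ2 : φ.hom.FiniteType := HasRingHomProperty.Spec_iff.mp hft2
  algebraize [φ.hom]
  have h1 := p_affine hCl h h1K hK hS Γ(X, ⊤) ‹_›
  refine h.iso f _ X.isoSpec ?_ h1
  have h3 : Spec.map (CommRingCat.ofHom (algebraMap R Γ(X, ⊤))) = X.isoSpec.inv ≫ f := hφ
  rw [h3, Iso.hom_inv_id_assoc]

/-- **Complements of elementary hypersurfaces suffice.** -/
theorem p_all (X : Scheme.{0}) (f : X ⟶ Spec (.of R)) (hf : Cl X f) : P X f := by
  obtain ⟨hft, hqc⟩ := hCl.ft X f hf
  have hln : IsLocallyNoetherian X := LocallyOfFiniteType.isLocallyNoetherian f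
  have hcs : CompactSpace X := QuasiCompact.compactSpace_of_compactSpace f
  have hN : IsNoetherian X := { }
  have key : ∀ (C : TopologicalSpace.Closeds X) (Z : Scheme.{0}) (i : Z ⟶ X),
      IsClosedImmersion i → Set.range i = C → P Z (i ≫ f) := by
    intro C
    induction C using WellFoundedLT.induction with
    | _ C ih =>
      intro Z i hi hr
      by_cases hem : IsEmpty Z
      · exact h.empty Z _ hem
      · rw [not_isEmpty_iff] at hem
        obtain ⟨z⟩ := hem
        have hex : ∃ V : Z.Opens, IsAffineOpen V ∧ z ∈ V := by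
          obtain ⟨_, ⟨V, hV, rfl⟩, hzV, -⟩ :=
            Z.isBasis_affineOpens.exists_subset_of_mem_open (Set.mem_univ z) isOpen_univ
          exact ⟨V, hV, hzV⟩
        obtain ⟨V, hV, hzV⟩ := hex
        have hVaff : IsAffine V := hV
        let D : TopologicalSpace.Closeds Z := ⟨(V : Set Z)ᶜ, V.isOpen.isClosed_compl⟩
        let I := Scheme.IdealSheafData.vanishingIdeal D
        have hrI : Set.range I.subschemeι = (V : Set Z)ᶜ := by
          rw [Scheme.IdealSheafData.range_subschemeι]
          exact Scheme.IdealSheafData.coe_support_vanishingIdeal _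
        have hZ : Cl Z (i ≫ f) := hCl.closed _ _ _ _ hi hf
        have hcl : IsClosedImmersion (I.subschemeι ≫ i) := inferInstance
        let C' : TopologicalSpace.Closeds X := ⟨Set.range (I.subschemeι ≫ i),
          hcl.isClosedEmbedding.isClosed_range⟩
        have hlt : C' < C := by
          rw [SetLike.lt_iff_le_and_exists]
          constructor
          · rintro _ ⟨w, rfl⟩
            have : (I.subschemeι ≫ i) w ∈ Set.range i := ⟨I.subschemeι w, rfl⟩
            rw [hr] at this
            exact this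
          · refine ⟨i z, ?_, ?_⟩
            · have : i z ∈ Set.range i := ⟨z, rfl⟩
              rw [hr] at this
              exact this
            · rintro ⟨w, hw⟩
              have h3 : I.subschemeι w = z := hi.isClosedEmbedding.injective hw
              have h4 : z ∈ Set.range I.subschemeι := ⟨w, h3⟩
              rw [hrI] at h4
              exact h4 hzV
        have hW := ih C' hlt I.subscheme (I.subschemeι ≫ i) hcl rfl
        have hV' : P V (V.ι ≫ i ≫ f) :=
          p_affine' hCl h h1K hK hS V _ (hCl.opn _ _ _ _ inferInstance hZ)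
        rw [Category.assoc] at hW
        exact h.glue Z I.subscheme V (i ≫ f) I.subschemeι V.ι hZ inferInstance inferInstance (by
          rw [hrI, Scheme.Opens.range_ι]) hW hV'
  have h5 := key ⊤ X (𝟙 X) inferInstance (by
    have : Set.range (𝟙 X : X ⟶ X) = Set.univ := Set.range_eq_univ.2 (𝟙 X : X ⟶ X).surjective
    rw [this]
    rfl)
  rwa [Category.id_comp] at h5

end

end Pool.Agent.R904.EL
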