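import Mathlib

/-!
# Presentations of rings by the relations `x y = z`, `x + y = z`, `x = a`
-/

set_option autoImplicit false

open MvPolynomial

namespace Pool.Agent.R904.EL

/-- the polynomials `xᵢ xⱼ - xₖ`, `xᵢ + xⱼ - xₖ` and `xᵢ - a` for `a ∈ K` -/
def IsElem {R σ : Type} [CommRing R] (K : Set R) (p : MvPolynomial σ R) : Prop :=
  (∃ i j k, p = X i * X j - X k) ∨ (∃ i j k, p = X i + X j - X k) ∨ ∃ i, ∃ a ∈ K, p = X i - C a

section

variable {R : Type} [CommRing R] {K : Set R}

/-- `B` is generated by the values of `v`, with the ideal of relations generated by `g` -/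
structure IsPres {σ κ : Type} (g : κ → MvPolynomial σ R) {B : Type} [CommRing B] [Algebra R B]
    (v : σ → B) : Prop where
  surj : Function.Surjective (aeval v : MvPolynomial σ R →ₐ[R] B)
  ker : RingHom.ker (aeval v : MvPolynomial σ R →ₐ[R] B) = Ideal.span (Set.range g)

/-- there is a finite presentation of `B` by elementary relations in which all elements of `S` are
variables -/
def HasPres (K : Set R) (B : Type) [CommRing B] [Algebra R B] (S : Set B) : Prop :=
  ∃ (σ κ : Type) (_ : Fintype σ) (_ : Fintype κ) (g : κ → MvPolynomial σ R) (v : σ → B),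
    (∀ k, IsElem K (g k)) ∧ IsPres g v ∧ S ⊆ Set.range v

theorem HasPres.mono {B : Type} [CommRing B] [Algebra R B] {S T : Set B} (h : HasPres K B T)
    (hST : S ⊆ T) : HasPres K B S := by
  obtain ⟨σ, κ, h1, h2, g, v, hg, hp, hT⟩ := h
  exact ⟨σ, κ, h1, h2, g, v, hg, hp, hST.trans hT⟩

theorem isElem_rename {σ τ : Type} (e : σ → τ) {p : MvPolynomial σ R} (hp : IsElem K p) :
    IsElem K (rename e p) := by
  rcases hp with ⟨i, j, k, rfl⟩ | ⟨i, j, k, rfl⟩ | ⟨i, a, ha, rfl⟩
  · exact Or.inl ⟨e i, e j, e k, by simp⟩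
  · exact Or.inr (Or.inl ⟨e i, e j, e k, by simp⟩)
  · exact Or.inr (Or.inr ⟨e i, a, ha, by simp⟩)

theorem sub_rename_mem {σ : Type} (w : MvPolynomial σ R) (I : Ideal (MvPolynomial (Option σ) R))
    (hI : X none - rename some w ∈ I)
    (ψ : MvPolynomial (Option σ) R →ₐ[R] MvPolynomial σ R) (h0 : ψ (X none) = w)
    (h1 : ∀ i, ψ (X (some i)) = X i) (p : MvPolynomial (Option σ) R) :
    p - rename some (ψ p) ∈ I := by
  induction p using MvPolynomial.induction_on with
  | C a =>
    rw [← MvPolynomial.algebraMap_eq, ψ.commutes, AlgHom.commutes, sub_self]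
    exact zero_mem _
  | add p q hp hq =>
    rw [map_add, map_add, add_sub_add_comm]
    exact add_mem hp hq
  | mul_X p i hp =>
    have h2 : p * X i - rename some (ψ (p * X i)) =
        (p - rename some (ψ p)) * X i + rename some (ψ p) * (X i - rename some (ψ (X i))) := by
      rw [map_mul, map_mul]
      ring
    rw [h2]
    refine add_mem (Ideal.mul_mem_right _ _ hp) (Ideal.mul_mem_left _ _ ?_)
    cases i with
    | none =>
      rw [h0]
      exact hI
    | some i =>
      rw [h1, rename_X, sub_self]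
      exact zero_mem _

/-- the relations after adding a new variable `z` and the relation `r` -/
noncomputable def addRel {σ κ : Type} (g : κ → MvPolynomial σ R) (r : MvPolynomial (Option σ) R) :
    Option κ → MvPolynomial (Option σ) R
  | none => r
  | some k => rename some (g k)

/-- the values after adding a new variable -/
def addVal {σ : Type} {B : Type} (v : σ → B) (b : B) : Option σ → B
  | none => b
  | some i => v i

theorem ker_extend {σ κ : Type} {g : κ → MvPolynomial σ R} {B : Type} [CommRing B] [Algebra R B]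
    (χ : MvPolynomial σ R →ₐ[R] B) (hχ : RingHom.ker χ = Ideal.span (Set.range g))
    (w : MvPolynomial σ R) (r : MvPolynomial (Option σ) R)
    (hr : r = rename some w - X none ∨ r = X none - rename some w)
    (φ : MvPolynomial (Option σ) R →ₐ[R] B) (hsome : ∀ p, φ (rename some p) = χ p)
    (hnone : φ (X none) = χ w) : RingHom.ker φ = Ideal.span (Set.range (addRel g r)) := by
  have hr0 : φ r = 0 := by
    rcases hr with rfl | rfl
    · rw [map_sub, hsome, hnone, sub_self]
    · rw [map_sub, hsome, hnone, sub_self]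
  have hrm : r ∈ Ideal.span (Set.range (addRel g r)) := Ideal.subset_span ⟨none, rfl⟩
  have hmem : (X none - rename some w : MvPolynomial (Option σ) R) ∈
      Ideal.span (Set.range (addRel g r)) := by
    rcases hr with h | h
    · rw [← neg_sub, ← h]
      exact neg_mem hrm
    · rw [← h]
      exact hrm
  have hge : Ideal.span (Set.range (addRel g r)) ≤ RingHom.ker φ := by
    rw [Ideal.span_le]
    rintro _ ⟨k, rfl⟩
    cases k with
    | none => exact hr0
    | some k =>
      change φ (rename some (g k)) = 0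
      rw [hsome]
      have : g k ∈ RingHom.ker χ := by
        rw [hχ]
        exact Ideal.subset_span ⟨k, rfl⟩
      exact this
  refine le_antisymm (fun p hp => ?_) hge
  obtain ⟨ψ, h0, h1⟩ : ∃ ψ : MvPolynomial (Option σ) R →ₐ[R] MvPolynomial σ R,
      ψ (X none) = w ∧ ∀ i, ψ (X (some i)) = X i :=
    ⟨aeval (addVal X w), aeval_X _ _, fun i => aeval_X _ _⟩
  have h2 := sub_rename_mem w _ hmem ψ h0 h1 p
  have h3 : χ (ψ p) = 0 := by
    have h4 : φ (p - rename some (ψ p)) = 0 := hge h2
    rw [map_sub, hsome, sub_eq_zero] at h4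
    rw [← h4]
    exact hp
  have h7 : ψ p ∈ Ideal.span (Set.range g) := by
    rw [← hχ]
    exact h3
  have h9 : (Ideal.span (Set.range g)).map (rename some :
      MvPolynomial σ R →ₐ[R] MvPolynomial (Option σ) R) ≤
      Ideal.span (Set.range (addRel g r)) := by
    rw [Ideal.map_span, Ideal.span_le]
    rintro _ ⟨_, ⟨k, rfl⟩, rfl⟩
    exact Ideal.subset_span ⟨some k, rfl⟩
  have h10 := add_mem h2 (h9 (Ideal.mem_map_of_mem _ h7))
  rwa [sub_add_cancel] at h10

/-- a new variable with the relation `z = w` -/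
theorem IsPres.extend {σ κ : Type} {g : κ → MvPolynomial σ R} {B : Type} [CommRing B] [Algebra R B]
    {v : σ → B} (h : IsPres g v) (w : MvPolynomial σ R) (r : MvPolynomial (Option σ) R)
    (hr : r = rename some w - X none ∨ r = X none - rename some w) :
    IsPres (addRel g r) (addVal v (aeval v w)) := by
  have hsome : ∀ p : MvPolynomial σ R,
      aeval (addVal v (aeval v w)) (rename some p) = aeval v p := by
    intro p
    rw [aeval_rename]
    rfl
  refine ⟨fun b => ?_, ker_extend (aeval v) h.ker w r hr _ hsome (aeval_X _ _)⟩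
  obtain ⟨p, rfl⟩ := h.surj b
  exact ⟨rename some p, hsome p⟩

variable {B : Type} [CommRing B] [Algebra R B]

theorem HasPres.step {S : Set B} (b : B)
    (h : ∃ (σ κ : Type) (_ : Fintype σ) (_ : Fintype κ)
    (g : κ → MvPolynomial σ R) (v : σ → B), (∀ k, IsElem K (g k)) ∧ IsPres g v ∧ S ⊆ Set.range v ∧
    ∃ (w : MvPolynomial σ R) (r : MvPolynomial (Option σ) R),
      (r = rename some w - X none ∨ r = X none - rename some w) ∧ IsElem K r ∧ aeval v w = b) :
    HasPres K B (insert b S) := by
  obtain ⟨σ, κ, h1, h2, g, v, hg, hp, hT, w, r, hr, hre, hb⟩ := h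
  subst hb
  refine ⟨Option σ, Option κ, inferInstance, inferInstance, addRel g r, addVal v (aeval v w), ?_,
    hp.extend w r hr, ?_⟩
  · rintro (_ | k)
    · exact hre
    · exact isElem_rename some (hg k)
  · rintro x (rfl | hx)
    · exact ⟨none, rfl⟩
    · obtain ⟨i, rfl⟩ := hT hx
      exact ⟨some i, rfl⟩

theorem HasPres.const {S : Set B} (h : HasPres K B S) {a : R} (ha : a ∈ K) :
    HasPres K B (insert (algebraMap R B a) S) := by
  obtain ⟨σ, κ, h1, h2, g, v, hg, hp, hT⟩ := h
  refine HasPres.step _ ⟨σ, κ, h1, h2, g, v, hg, hp, hT, C a, X none - C a, Or.inr ?_,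
    Or.inr (Or.inr ⟨none, a, ha, rfl⟩), ?_⟩
  · rw [rename_C]
  · rw [aeval_C]

theorem HasPres.zero {S : Set B} (h : HasPres K B S) : HasPres K B (insert 0 S) := by
  obtain ⟨σ, κ, h1, h2, g, v, hg, hp, hT⟩ := h
  refine HasPres.step _ ⟨σ, κ, h1, h2, g, v, hg, hp, hT, 0, X none + X none - X none, Or.inr ?_,
    Or.inr (Or.inl ⟨none, none, none, rfl⟩), map_zero _⟩
  rw [map_zero]
  ring

theorem HasPres.add {S : Set B} (h : HasPres K B S) {a b : B} (ha : a ∈ S) (hb : b ∈ S) :
    HasPres K B (insert (a + b) S) := by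
  obtain ⟨σ, κ, h1, h2, g, v, hg, hp, hT⟩ := h
  obtain ⟨i, rfl⟩ := hT ha
  obtain ⟨j, rfl⟩ := hT hb
  refine HasPres.step _ ⟨σ, κ, h1, h2, g, v, hg, hp, hT, X i + X j,
    X (some i) + X (some j) - X none, Or.inl ?_, Or.inr (Or.inl ⟨some i, some j, none, rfl⟩), ?_⟩
  · rw [map_add, rename_X, rename_X]
  · rw [map_add, aeval_X, aeval_X]

theorem HasPres.mul {S : Set B} (h : HasPres K B S) {a b : B} (ha : a ∈ S) (hb : b ∈ S) :
    HasPres K B (insert (a * b) S) := by
  obtain ⟨σ, κ, h1, h2, g, v, hg, hp, hT⟩ := h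
  obtain ⟨i, rfl⟩ := hT ha
  obtain ⟨j, rfl⟩ := hT hb
  refine HasPres.step _ ⟨σ, κ, h1, h2, g, v, hg, hp, hT, X i * X j,
    X (some i) * X (some j) - X none, Or.inl ?_, Or.inl ⟨some i, some j, none, rfl⟩, ?_⟩
  · rw [map_mul, rename_X, rename_X]
  · rw [map_mul, aeval_X, aeval_X]

theorem HasPres.neg {S : Set B} (h : HasPres K B S) {a : B} (ha : a ∈ S) :
    HasPres K B (insert (-a) S) := by
  obtain ⟨σ, κ, h1, h2, g, v, hg, hp, hT⟩ := h.zero
  obtain ⟨i, rfl⟩ := hT (Or.inr ha)
  obtain ⟨o, ho⟩ := hT (Or.inl rfl)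
  refine (HasPres.step (-(v i)) ⟨σ, κ, h1, h2, g, v, hg, hp, hT, X o - X i,
    X none + X (some i) - X (some o), Or.inr ?_, Or.inr (Or.inl ⟨none, some i, some o, rfl⟩),
    ?_⟩).mono ?_
  · rw [map_sub, rename_X, rename_X]
    ring
  · rw [map_sub, aeval_X, aeval_X, ho, zero_sub]
  · exact Set.insert_subset_insert (Set.subset_insert _ _)

/-- the element `b` can be made a variable -/
def Reach (K : Set R) (S : Set B) (b : B) : Prop :=
  ∀ T : Set B, S ⊆ T → HasPres K B T → HasPres K B (insert b T)

theorem Reach.two {S : Set B} {a b : B} (ha : Reach K S a) (hb : Reach K S b) (c : B)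
    (hc : ∀ T : Set B, a ∈ T → b ∈ T → HasPres K B T → HasPres K B (insert c T)) :
    Reach K S c := by
  intro T hST hT
  have h1 := ha T hST hT
  have h2 := hb _ (hST.trans (Set.subset_insert _ _)) h1
  exact (hc _ (Or.inr (Or.inl rfl)) (Or.inl rfl) h2).mono
    (Set.insert_subset_insert ((Set.subset_insert _ _).trans (Set.subset_insert _ _)))

theorem reach_algebraMap (h1K : 1 ∈ K) (hK : Subring.closure K = ⊤) (S : Set B) (a : R) :
    Reach K S (algebraMap R B a) := by
  have ha : a ∈ Subring.closure K := by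
    rw [hK]
    exact Subring.mem_top a
  induction ha using Subring.closure_induction with
  | mem x hx => exact fun T _ hT => hT.const hx
  | zero =>
    rw [map_zero]
    exact fun T _ hT => hT.zero
  | one => exact fun T _ hT => hT.const h1K
  | add x y _ _ hx hy =>
    rw [map_add]
    exact hx.two hy _ fun T h1 h2 hT => hT.add h1 h2
  | neg x _ hx =>
    rw [map_neg]
    exact hx.two hx _ fun T h1 _ hT => hT.neg h1
  | mul x y _ _ hx hy =>
    rw [map_mul]
    exact hx.two hy _ fun T h1 h2 hT => hT.mul h1 h2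

theorem reach_mvPolynomial (h1K : 1 ∈ K) (hK : Subring.closure K = ⊤) {n : ℕ}
    (b : MvPolynomial (Fin n) R) : Reach K (Set.range (X : Fin n → MvPolynomial (Fin n) R)) b := by
  induction b using MvPolynomial.induction_on with
  | C a =>
    rw [← MvPolynomial.algebraMap_eq]
    exact reach_algebraMap h1K hK _ a
  | add p q hp hq => exact hp.two hq _ fun T h1 h2 hT => hT.add h1 h2
  | mul_X p i hp =>
    intro T hST hT
    have h1 := hp T hST hT
    exact (h1.mul (Or.inl rfl) (Or.inr (hST ⟨i, rfl⟩))).mono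
      (Set.insert_subset_insert (Set.subset_insert _ _))

theorem hasPres_mvPolynomial (n : ℕ) :
    HasPres K (MvPolynomial (Fin n) R) (Set.range (X : Fin n → MvPolynomial (Fin n) R)) := by
  refine ⟨Fin n, Empty, inferInstance, inferInstance, Empty.elim, X, fun k => k.elim, ⟨?_, ?_⟩,
    subset_rfl⟩
  · intro b
    exact ⟨b, by rw [aeval_X_left_apply]⟩
  · ext p
    rw [RingHom.mem_ker, aeval_X_left_apply, Set.range_eq_empty, Ideal.span_empty, Ideal.mem_bot]

theorem hasPres_list (h1K : 1 ∈ K) (hK : Subring.closure K = ⊤) {n : ℕ}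
    (l : List (MvPolynomial (Fin n) R)) :
    HasPres K (MvPolynomial (Fin n) R)
      (Set.range (X : Fin n → MvPolynomial (Fin n) R) ∪ {b | b ∈ l}) := by
  induction l with
  | nil => exact (hasPres_mvPolynomial n).mono (by simp)
  | cons a l ih =>
    refine (reach_mvPolynomial h1K hK a _ Set.subset_union_left ih).mono ?_
    rintro x (hx | hx)
    · exact Or.inr (Or.inl hx)
    · rcases List.mem_cons.1 hx with rfl | hx
      · exact Or.inl rfl
      · exact Or.inr (Or.inr hx)

theorem isPres_quotient {σ κ ι : Type} {g : κ → MvPolynomial σ R} {v : σ → B} (h : IsPres g v)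
    (f : ι → B) (c : ι → σ) (hc : ∀ i, v (c i) = f i) :
    IsPres (Sum.elim g fun i => X (c i) + X (c i) - X (c i))
      (fun s => Ideal.Quotient.mk (Ideal.span (Set.range f)) (v s)) := by
  have hcomp : ∀ p : MvPolynomial σ R,
      aeval (fun s => Ideal.Quotient.mk (Ideal.span (Set.range f)) (v s)) p =
        Ideal.Quotient.mk (Ideal.span (Set.range f)) (aeval v p) := by
    intro p
    have h1 : (aeval (fun s => Ideal.Quotient.mk (Ideal.span (Set.range f)) (v s)) :
        MvPolynomial σ R →ₐ[R] _) = (Ideal.Quotient.mkₐ R (Ideal.span (Set.range f))).comp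
          (aeval v) := by
      apply MvPolynomial.algHom_ext
      intro i
      rw [aeval_X, AlgHom.comp_apply, aeval_X]
      rfl
    rw [h1]
    rfl
  constructor
  · intro b
    obtain ⟨b, rfl⟩ := Ideal.Quotient.mk_surjective b
    obtain ⟨p, rfl⟩ := h.surj b
    exact ⟨p, hcomp p⟩
  · have hI : Ideal.span (Set.range f) =
        (Ideal.span (Set.range fun i => (X (c i) : MvPolynomial σ R))).map
          (aeval v : MvPolynomial σ R →ₐ[R] B) := by
      rw [Ideal.map_span]
      congr 1
      ext x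
      constructor
      · rintro ⟨i, rfl⟩
        exact ⟨X (c i), ⟨i, rfl⟩, by rw [aeval_X]; exact hc i⟩
      · rintro ⟨_, ⟨i, rfl⟩, rfl⟩
        exact ⟨i, by rw [aeval_X]; exact (hc i).symm⟩
    have h2 : ∀ p : MvPolynomial σ R, p ∈ RingHom.ker
        (aeval (fun s => Ideal.Quotient.mk (Ideal.span (Set.range f)) (v s)) :
          MvPolynomial σ R →ₐ[R] _) ↔
        p ∈ (Ideal.span (Set.range fun i => (X (c i) : MvPolynomial σ R))) ⊔
          RingHom.ker (aeval v : MvPolynomial σ R →ₐ[R] B) := by
      intro p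
      rw [RingHom.mem_ker, hcomp, Ideal.Quotient.eq_zero_iff_mem, hI, ← Ideal.mem_comap]
      rw [Ideal.comap_map_of_surjective _ h.surj]
      rfl
    ext p
    rw [h2, h.ker, Set.Sum.elim_range, Ideal.span_union, sup_comm]
    have h3 : (fun i => X (c i) + X (c i) - X (c i) : ι → MvPolynomial σ R) =
        fun i => X (c i) := by
      funext i
      rw [add_sub_cancel_right]
    rw [h3]

/-- finitely generated algebras have presentations by elementary relations -/
theorem exists_elementary (R : Type) [CommRing R] [IsNoetherianRing R] (K : Set R) (h1K : 1 ∈ K)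
    (hK : Subring.closure K = ⊤) (B : Type) [CommRing B] [Algebra R B] [Algebra.FiniteType R B] :
    ∃ (σ κ : Type) (_ : Fintype σ) (_ : Fintype κ) (g : κ → MvPolynomial σ R),
      (∀ k, IsElem K (g k)) ∧
      Nonempty ((MvPolynomial σ R ⧸ Ideal.span (Set.range g)) ≃ₐ[R] B) := by
  obtain ⟨n, p, hp⟩ := Algebra.FiniteType.iff_quotient_mvPolynomial''.1
    (inferInstance : Algebra.FiniteType R B)
  obtain ⟨r, f, hf⟩ := (Submodule.fg_iff_exists_fin_generating_family.1
    (IsNoetherian.noetherian (RingHom.ker p)))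
  have hker : RingHom.ker p = Ideal.span (Set.range f) := hf.symm
  obtain ⟨σ, κ, h1, h2, g, v, hg, hv, hT⟩ := hasPres_list h1K hK (List.ofFn f)
  have hc : ∀ i, ∃ s, v s = f i := fun i => hT (Or.inr (List.mem_ofFn.2 ⟨i, rfl⟩))
  choose c hc using hc
  have h3 := isPres_quotient hv f c hc
  refine ⟨σ, κ ⊕ Fin r, h1, inferInstance, Sum.elim g fun i => X (c i) + X (c i) - X (c i), ?_,
    ⟨?_⟩⟩
  · rintro (k | i)
    · exact hg k
    · exact Or.inr (Or.inl ⟨c i, c i, c i, rfl⟩)
  · exact ((Ideal.quotientEquivAlgOfEq R h3.ker.symm).trans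
      (Ideal.quotientKerAlgEquivOfSurjective h3.surj)).trans
      ((Ideal.quotientEquivAlgOfEq R hker.symm).trans
        (Ideal.quotientKerAlgEquivOfSurjective hp))

end

end Pool.Agent.R904.EL
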