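import Pool.Agent.R904.EL.Main
import Pool.Agent.R904.CU.KMain

/-!
# Étale cohomology of cycle complexes in negative weights, formally
-/

set_option autoImplicit false

open CategoryTheory CategoryTheory.Limits AlgebraicGeometry MvPolynomial
open Pool.Agent.R904.CU

namespace Pool.Agent.R904.EL

/-- The properties of the groups `Hⁱ(X_et, ℤᶜ(n))`, `n < 0`, of arithmetic schemes which are used. -/
structure EtCycle where
  /-- the group `H n i X = Hⁱ(X_et, ℤᶜ(n))` -/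
  H : ℤ → ℤ → Scheme.{0} → Type
  /-- its group structure -/
  grp : ∀ (n i : ℤ) (X : Scheme.{0}), AddCommGroup (H n i X)
  /-- the groups of the empty scheme vanish -/
  empty : ∀ (n i : ℤ) (X : Scheme.{0}), IsEmpty X → Subsingleton (H n i X)
  /-- isomorphic schemes have isomorphic groups -/
  iso : ∀ (n i : ℤ) (X Y : Scheme.{0}), (X ≅ Y) → Nonempty (H n i X ≃+ H n i Y)
  /-- the localization sequence
  `Hⁱ⁻¹(X) → Hⁱ⁻¹(U) → Hⁱ(Z) → Hⁱ(X) → Hⁱ(U)` of a closed subscheme `Z` with open complement `U` -/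
  localization : ∀ n : ℤ, n < 0 → ∀ (X Z U : Scheme.{0}) (f : X ⟶ Spec (.of ℤ)) (i : Z ⟶ X)
    (j : U ⟶ X), SepFinType ℤ X f → IsClosedImmersion i → IsOpenImmersion j →
    Set.range i = (Set.range j)ᶜ →
    ∃ (a : ∀ i, H n i Z →+ H n i X) (b : ∀ i, H n i X →+ H n i U)
      (d : ∀ i, H n (i - 1) U →+ H n i Z),
      (∀ i, Function.Exact (a i) (b i)) ∧ (∀ i, Function.Exact (b (i - 1)) (d i)) ∧
      (∀ i, Function.Exact (d i) (a i))
  /-- the groups of affine spaces: `Hⁱ(𝔸^N, ℤᶜ(n)) = H^{i+2N}(Spec ℤ, ℤᶜ(n-N))` -/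
  homotopy : ∀ n : ℤ, n < 0 → ∀ (i : ℤ) (σ : Type) [Fintype σ],
    Nonempty (H n i (Spec (.of (MvPolynomial σ ℤ))) ≃+
      H (n - Fintype.card σ) (i + 2 * Fintype.card σ) (Spec (.of ℤ)))
  /-- the groups of `Spec ℤ` are finitely generated -/
  integers : ∀ n : ℤ, n < 0 → ∀ i : ℤ, AddGroup.FG (H n i (Spec (.of ℤ)))

attribute [instance] EtCycle.grp

namespace EtCycle

variable (T : EtCycle)

/-- `Hⁱ(X_et, ℤᶜ(n))` is finitely generated for all arithmetic schemes `X` and all `i ≤ m` -/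
def AllFG (n m : ℤ) : Prop := ∀ (X : Scheme.{0}) (f : X ⟶ Spec (.of ℤ)), SepFinType ℤ X f →
  ∀ i ≤ m, AddGroup.FG (T.H n i X)

/-- `Hⁱ(X_et, ℤᶜ(n))` is finitely generated for `i ≤ m` and all complements `X` of finite unions of
hypersurfaces of the form `xᵢ xⱼ = xₖ`, `xᵢ + xⱼ = xₖ`, `xᵢ = 1` in affine spaces over `ℤ` -/
def ArrFG (n m : ℤ) : Prop := ∀ (σ : Type) [Fintype σ], ∀ a ∈ elemProds ({1} : Set ℤ) σ,
  ∀ i ≤ m, AddGroup.FG (T.H n i (compl a))

theorem fg_space (n : ℤ) (hn : n < 0) (i : ℤ) (σ : Type) [Fintype σ] :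
    AddGroup.FG (T.H n i (Spec (.of (MvPolynomial σ ℤ)))) := by
  obtain ⟨e⟩ := T.homotopy n hn i σ
  exact fg_equiv ⟨e.symm⟩ (T.integers _ (by omega) _)

theorem glue (n : ℤ) (hn : n < 0) (m : ℤ) : Glue (SepFinType ℤ)
    (fun X _ => ∀ i ≤ m, AddGroup.FG (T.H n i X)) where
  empty Z f hZ i _ := by
    have h := T.empty n i Z hZ
    exact AddGroup.fg_of_finite
  iso f g e _ h i hi := fg_equiv (T.iso n i _ _ e.symm) (h i hi)
  glue X Z U f i j hf hi hj hr hZ hU k hk := by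
    obtain ⟨a, b, d, h1, h2, h3⟩ := T.localization n hn X Z U f i j hf hi hj hr
    exact fg_exact (a k) (b k) (h1 k) (hZ k hk) (hU k hk)
  sub X Z U f i j hf hi hj hr hX hU k hk := by
    obtain ⟨a, b, d, h1, h2, h3⟩ := T.localization n hn X Z U f i j hf hi hj hr
    exact fg_exact (d k) (a k) (h3 k) (hU (k - 1) (by omega)) (hX k hk)

theorem closure_one : Subring.closure ({1} : Set ℤ) = ⊤ := by
  rw [eq_top_iff]
  rintro x -
  have h1 : (1 : ℤ) ∈ Subring.closure ({1} : Set ℤ) := Subring.subset_closure rfl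
  have h2 := Subring.zsmul_mem _ h1 x
  rwa [smul_eq_mul, mul_one] at h2

theorem allFG_iff (n : ℤ) (hn : n < 0) (m : ℤ) : T.AllFG n m ↔ T.ArrFG n m := by
  constructor
  · intro h σ _ a _
    refine h _ (complHom a) ((cls_sepFinType ℤ).affine _ ?_)
    exact inferInstance
  · intro h X f hf
    exact p_all (cls_sepFinType ℤ) (T.glue n hn m) (K := {1}) rfl closure_one
      (fun σ _ a ha => h σ a ha) X f hf

end EtCycle

end Pool.Agent.R904.EL
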