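import Pool.Agent.R904.EL.Elem
import Pool.Agent.R904.CU.Main

/-!
# Mayer-Vietoris for properties of schemes
-/

set_option autoImplicit false

open CategoryTheory CategoryTheory.Limits AlgebraicGeometry MvPolynomial
open Pool.Agent.R904.CU

namespace Pool.Agent.R904.EL

/-- a property of schemes with the formal behaviour of the finite generation of the groups of a
homology theory in degrees bounded from one side -/
structure Glue {R : Type} [CommRing R] (Cl P : SchProp R) : Prop where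
  empty : ∀ (Z : Scheme.{0}) (f : Z ⟶ Spec (.of R)), IsEmpty Z → P Z f
  iso : ∀ {X Y : Scheme.{0}} (f : X ⟶ Spec (.of R)) (g : Y ⟶ Spec (.of R)) (e : X ≅ Y),
    e.hom ≫ g = f → P Y g → P X f
  glue : ∀ (X Z U : Scheme.{0}) (f : X ⟶ Spec (.of R)) (i : Z ⟶ X) (j : U ⟶ X), Cl X f →
    IsClosedImmersion i → IsOpenImmersion j → Set.range i = (Set.range j)ᶜ →
    P Z (i ≫ f) → P U (j ≫ f) → P X f
  sub : ∀ (X Z U : Scheme.{0}) (f : X ⟶ Spec (.of R)) (i : Z ⟶ X) (j : U ⟶ X), Cl X f →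
    IsClosedImmersion i → IsOpenImmersion j → Set.range i = (Set.range j)ᶜ →
    P X f → P U (j ≫ f) → P Z (i ≫ f)

theorem mem_range_homOfLE {X : Scheme.{0}} {U V : X.Opens} (h : U ≤ V) (w : (V : Scheme.{0})) :
    w ∈ Set.range (X.homOfLE h) ↔ V.ι w ∈ U := by
  constructor
  · rintro ⟨v, rfl⟩
    have h1 : V.ι (X.homOfLE h v) = U.ι v := by
      rw [← Scheme.Hom.comp_apply, Scheme.homOfLE_ι]
    rw [h1]
    have : U.ι v ∈ Set.range U.ι := ⟨v, rfl⟩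
    rwa [Scheme.Opens.range_ι] at this
  · intro hw
    have h1 : V.ι w ∈ Set.range U.ι := by
      rw [Scheme.Opens.range_ι]
      exact hw
    obtain ⟨v, hv⟩ := h1
    refine ⟨v, V.ι.isOpenEmbedding.injective ?_⟩
    rw [← hv, ← Scheme.Hom.comp_apply, Scheme.homOfLE_ι]

section

variable {R : Type} [CommRing R] [IsNoetherianRing R] {Cl P : SchProp R} (hCl : Cls Cl)
  (h : Glue Cl P)

include hCl h

/-- Mayer-Vietoris -/
theorem mv (X : Scheme.{0}) (f : X ⟶ Spec (.of R)) (hf : Cl X f) (V₁ V₂ : X.Opens)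
    (h1 : P V₁ (V₁.ι ≫ f)) (h2 : P V₂ (V₂.ι ≫ f))
    (h12 : P (V₁ ⊓ V₂ : X.Opens) ((V₁ ⊓ V₂).ι ≫ f)) :
    P (V₁ ⊔ V₂ : X.Opens) ((V₁ ⊔ V₂).ι ≫ f) := by
  have hW := hCl.opn X _ f (V₁ ⊔ V₂).ι inferInstance hf
  have hV2 := hCl.opn X _ f V₂.ι inferInstance hf
  let j₁ := X.homOfLE (le_sup_left : V₁ ≤ V₁ ⊔ V₂)
  let j₂ := X.homOfLE (le_sup_right : V₂ ≤ V₁ ⊔ V₂)
  let j₁₂ := X.homOfLE (inf_le_right : V₁ ⊓ V₂ ≤ V₂)
  let D : TopologicalSpace.Closeds ((V₁ ⊔ V₂ : X.Opens) : Scheme.{0}) :=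
    ⟨(Set.range j₁)ᶜ, j₁.isOpenEmbedding.isOpen_range.isClosed_compl⟩
  let I := Scheme.IdealSheafData.vanishingIdeal D
  have hrI : Set.range I.subschemeι = (Set.range j₁)ᶜ := by
    rw [Scheme.IdealSheafData.range_subschemeι]
    exact Scheme.IdealSheafData.coe_support_vanishingIdeal _
  have hsub : Set.range I.subschemeι ⊆ Set.range j₂ := by
    rw [hrI]
    intro w hw
    rw [Set.mem_compl_iff, mem_range_homOfLE] at hw
    rw [mem_range_homOfLE]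
    have h3 : (V₁ ⊔ V₂).ι w ∈ Set.range (V₁ ⊔ V₂).ι := ⟨w, rfl⟩
    rw [Scheme.Opens.range_ι] at h3
    rcases h3 with h3 | h3
    · exact (hw h3).elim
    · exact h3
  let i₂ : I.subscheme ⟶ (V₂ : Scheme.{0}) := IsOpenImmersion.lift j₂ I.subschemeι hsub
  have hi₂ : i₂ ≫ j₂ = I.subschemeι := IsOpenImmersion.lift_fac _ _ _
  have hcl : IsClosedImmersion (i₂ ≫ j₂) := by
    rw [hi₂]
    infer_instance
  have hcl2 : IsClosedImmersion i₂ := IsClosedImmersion.of_comp i₂ j₂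
  have hr : Set.range i₂ = (Set.range j₁₂)ᶜ := by
    ext w
    rw [Set.mem_compl_iff, mem_range_homOfLE]
    constructor
    · rintro ⟨z, rfl⟩ hcon
      have h3 : I.subschemeι z ∈ Set.range I.subschemeι := ⟨z, rfl⟩
      rw [hrI, Set.mem_compl_iff, mem_range_homOfLE] at h3
      apply h3
      have h4 : (V₁ ⊔ V₂).ι (I.subschemeι z) = V₂.ι (i₂ z) := by
        rw [← hi₂, Scheme.Hom.comp_apply, ← Scheme.Hom.comp_apply j₂, Scheme.homOfLE_ι]
      rw [h4]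
      exact hcon.1
    · intro hw
      have h3 : j₂ w ∈ Set.range I.subschemeι := by
        rw [hrI, Set.mem_compl_iff, mem_range_homOfLE, ← Scheme.Hom.comp_apply, Scheme.homOfLE_ι]
        intro h4
        apply hw
        refine ⟨h4, ?_⟩
        have : V₂.ι w ∈ Set.range V₂.ι := ⟨w, rfl⟩
        rwa [Scheme.Opens.range_ι] at this
      obtain ⟨z, hz⟩ := h3
      refine ⟨z, j₂.isOpenEmbedding.injective ?_⟩
      rw [← hz, ← hi₂, Scheme.Hom.comp_apply]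
  have e2 : j₂ ≫ (V₁ ⊔ V₂).ι = V₂.ι := Scheme.homOfLE_ι _ _
  have e1 : j₁ ≫ (V₁ ⊔ V₂).ι = V₁.ι := Scheme.homOfLE_ι _ _
  have e12 : j₁₂ ≫ V₂.ι = (V₁ ⊓ V₂).ι := Scheme.homOfLE_ι _ _
  have hZ : P I.subscheme (i₂ ≫ V₂.ι ≫ f) := by
    refine h.sub _ _ _ (V₂.ι ≫ f) i₂ j₁₂ hV2 hcl2 inferInstance hr h2 ?_
    rw [← Category.assoc, e12]
    exact h12
  refine h.glue _ _ _ ((V₁ ⊔ V₂).ι ≫ f) I.subschemeι j₁ hW inferInstance inferInstance hrI ?_ ?_
  · rw [← hi₂, Category.assoc, ← Category.assoc j₂, e2]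
    exact hZ
  · rw [← Category.assoc, e1]
    exact h1

end

end Pool.Agent.R904.EL
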